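import Pool.Agent.Helper63.PL.Assembly
import Pool.Agent.Helper63.PL.Bridge
import Pool.Agent.Helper85.PL.PH
import Pool.Agent.Helper27.PL.CO
import Pool.Agent.Helper45.PL.KE
import Pool.Agent.Helper31.PL.SU
import Pool.Agent.Helper56.PL.LI
import Pool.Agent.Helper77.PL.LP
import Pool.Agent.Helper26.PL.UP
import Pool.Agent.Helper25.PL.GE

set_option autoImplicit false

open MeasureTheory Set
open scoped ENNReal ContDiff

namespace Pool.Agent.Results.MP_32e3a9_an.LargeP

open Pool.Agent.Helper63.Plain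

/-- For large `p`, the first eigenvalue of the half domain lies strictly below the variational
eigenvalue `λ_{N+2}`, for every ball and every annulus with ratio of radii below `3 - 2√2`. -/
theorem result :
    ∀ (N : ℕ), 2 ≤ N → ∀ (i : Fin N) (a b : ℝ), 0 < b → a < (3 - 2 * √2) * b →
      ∃ p₀ : ℝ, ∀ p : ℝ≥0∞, 1 ≤ p → p ≠ ⊤ → p₀ ≤ p.toReal →
        lam p (half (Rad N a b) i) 1 < lam p (Rad N a b) (N + 2) := by
  intro N hN i a b hb hab
  obtain ⟨p₀, h⟩ := Pool.Agent.Helper63.PL.final Pool.Agent.Helper85.PL.ph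
    Pool.Agent.Helper27.PL.co Pool.Agent.Helper45.PL.ke
    (Pool.Agent.Helper31.PL.su Pool.Agent.Helper45.PL.ke)
    (Pool.Agent.Helper56.PL.li Pool.Agent.Helper45.PL.ke)
    (Pool.Agent.Helper77.PL.lp Pool.Agent.Helper45.PL.ke
      (Pool.Agent.Helper31.PL.su Pool.Agent.Helper45.PL.ke))
    Pool.Agent.Helper26.PL.up Pool.Agent.Helper25.PL.ge N hN i a b hb hab
  refine ⟨p₀, fun p hp1 hp hpp => ?_⟩
  haveI : Fact (1 ≤ p) := ⟨hp1⟩
  rw [Pool.Agent.Helper63.PLBridge.lam_eq hp, Pool.Agent.Helper63.PLBridge.lam_eq hp]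
  exact h p hp hpp

end Pool.Agent.Results.MP_32e3a9_an.LargeP
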